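import Pool.Graph.R_pool_sql_team_seeded_2aa45f1a.Q324.SC.PlaneMain
import Pool.Agent.H447.IPX.H201_Core

/-!
# Bounds for the integer points on plane curves from boundedly many guesses: the combinatorics
-/

set_option autoImplicit false

namespace Pool.Agent.H447.IP

open Pool.Agent.Q324.SC

/-- `c` bounds the integer zeros of `L` if there are finitely many -/
def Bd (c : ℕ) (L : List Term) : Prop :=
  {p : ℤ × ℤ | ev L p.1 p.2 = 0}.Finite → ∀ x y : ℤ, ev L x y = 0 → x.natAbs ≤ c ∧ y.natAbs ≤ c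

lemma Bd.mono {c c' : ℕ} (h : c ≤ c') {L : List Term} (hb : Bd c L) : Bd c' L :=
  fun hf x y hxy => ⟨(hb hf x y hxy).1.trans h, (hb hf x y hxy).2.trans h⟩

/-- the degree of the factors -/
def ee (L : List Term) (n : ℕ) : ℕ := n - dg L
/-- the number of the coefficients of the factors -/
def ff (L : List Term) (n : ℕ) : ℕ := (ee L n + 1) * (ee L n + 1)
/-- the size of the coefficients of the factors -/
def MM (L : List Term) (H : ℕ) : ℕ := (H - sz L) / (2 * sz L)
/-- the number of the factors -/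
def num (L : List Term) (n H : ℕ) : ℕ := (MM L H + 1) ^ ff L n
/-- a sufficient size of the coefficients -/
def thr (L : List Term) (n K : ℕ) : ℕ :=
  sz L + 2 * sz L * (2 * K * (3 * sz L) ^ (ff L n - 1))
/-- the products -/
def cd (L : List Term) (n H k : ℕ) : List Term := cand L (ee L n) n (MM L H) k
/-- the admitted number of exceptions -/
def few (n H K g : ℕ) : ℕ := K * (H + 1) ^ ((n + 1) ^ 2 - g * (n + 1))

lemma sz_ne {L : List Term} (hf : {p : ℤ × ℤ | ev L p.1 p.2 = 0}.Finite) : sz L ≠ 0 := by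
  intro h
  have h1 : ∀ x y : ℤ, ev L x y = 0 := by
    intro x y
    unfold ev
    apply List.sum_eq_zero
    intro z hz
    rw [List.mem_map] at hz
    obtain ⟨t, ht, rfl⟩ := hz
    have h2 : t.2.2.natAbs ≤ sz L := List.le_sum_of_mem (List.mem_map.2 ⟨t, ht, rfl⟩)
    have h3 : t.2.2 = 0 := by omega
    rw [h3]
    ring
  have h2 : (Set.univ : Set (ℤ × ℤ)).Finite := by
    refine hf.subset fun p _ => h1 p.1 p.2
  exact Set.infinite_univ h2

lemma expo {n d g : ℕ} (h1 : d ≤ n) (h2 : 2 * d + 1 ≤ g) :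
    (n + 1) ^ 2 - g * (n + 1) ≤ (n - d + 1) * (n - d + 1) - 1 := by
  obtain ⟨t, rfl⟩ : ∃ t, n = d + t := ⟨n - d, by omega⟩
  have h3 : d + t - d = t := by omega
  rw [h3]
  have h4 : (2 * d + 1) * (d + t + 1) ≤ g * (d + t + 1) := Nat.mul_le_mul_right _ h2
  have h5 : (d + t + 1) ^ 2 + 1 ≤ (2 * d + 1) * (d + t + 1) + (t + 1) * (t + 1) := by nlinarith
  omega

lemma cd_bd {L : List Term} {n H k c : ℕ} (h1 : dg L ≤ n) (h : Bd c (cd L n H k)) : Bd c L := by
  intro hf x y hxy
  have h2 : dg L + ee L n ≤ n := by unfold ee; omega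
  refine h ?_ x y ((ev_cand_zero h2 x y).2 hxy)
  exact hf.subset fun p hp => (ev_cand_zero h2 p.1 p.2).1 hp

/-- the number of the bad products -/
lemma few_bad {L : List Term} {n H K g : ℕ} (hf : {p : ℤ × ℤ | ev L p.1 p.2 = 0}.Finite)
    (h1 : dg L ≤ n) (h2 : 2 * dg L + 1 ≤ g) (h3 : thr L n K ≤ H) (Gd : List Term → Prop)
    [DecidablePred Gd] (hex : {L' | L' ∈ Box n H ∧ ¬ Gd L'}.encard ≤ ((few n H K g : ℕ) : ℕ∞)) :
    ((Finset.range (num L n H)).filter (fun k => ¬ Gd (cd L n H k))).card ≤ few n H K g ∧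
      2 * few n H K g < num L n H := by
  have hs : 0 < sz L := Nat.pos_of_ne_zero (sz_ne hf)
  have h4 : dg L + ee L n ≤ n := by unfold ee; omega
  obtain ⟨s, hse⟩ : ∃ s, s = sz L := ⟨_, rfl⟩
  obtain ⟨M, hM⟩ : ∃ M, M = MM L H := ⟨_, rfl⟩
  obtain ⟨m, hm⟩ : ∃ m, m = 2 * K * (3 * sz L) ^ (ff L n - 1) := ⟨_, rfl⟩
  have hM2 : M = (H - s) / (2 * s) := by rw [hM, hse]; rfl
  have h3' : s + 2 * s * m ≤ H := by
    have := h3
    unfold thr at this
    rw [← hse, hm] at *
    exact this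
  rw [← hse] at hs
  have g1 : 2 * s * M ≤ H - s := by
    rw [hM2]
    exact Nat.mul_div_le _ _
  have g2 : H - s < 2 * s * (M + 1) := by
    rw [hM2]
    exact Nat.lt_mul_div_succ _ (by omega)
  have g3 : m ≤ M := by
    rw [hM2, Nat.le_div_iff_mul_le (by omega)]
    have : m * (2 * s) = 2 * s * m := by ring
    omega
  have g4 : s * (1 + 2 * M) ≤ H := by
    have : s * (1 + 2 * M) = s + 2 * s * M := by ring
    omega
  have g5 : H + 1 ≤ 3 * s * (M + 1) := by
    have e1 : 2 * s * (M + 1) = 2 * s * M + 2 * s := by ring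
    have e2 : 3 * s * (M + 1) = 2 * s * M + 2 * s + (s * M + s) := by ring
    have e3 : 0 ≤ s * M := Nat.zero_le _
    omega
  refine ⟨?_, ?_⟩
  · have a1 : (((Finset.range (num L n H)).filter (fun k => ¬ Gd (cd L n H k))).card : ℕ∞) ≤
        {L' | L' ∈ Box n H ∧ ¬ Gd L'}.encard := by
      rw [← Set.encard_coe_eq_coe_finsetCard]
      have a2 : Set.InjOn (fun k => cd L n H k)
          (((Finset.range (num L n H)).filter (fun k => ¬ Gd (cd L n H k)) : Finset ℕ) : Set ℕ) := by
        intro k hk k' hk' hkk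
        rw [Finset.mem_coe, Finset.mem_filter, Finset.mem_range] at hk hk'
        exact cand_inj h4 hf hk.1 hk'.1 hkk
      rw [← a2.encard_image]
      refine Set.encard_le_encard ?_
      rintro _ ⟨k, hk, rfl⟩
      rw [Finset.mem_coe, Finset.mem_filter, Finset.mem_range] at hk
      refine ⟨?_, hk.2⟩
      obtain ⟨c, hc, hc2⟩ := cand_mem L (ee L n) n (MM L H) k
      refine ⟨c, fun i j => (hc i j).trans ?_, hc2⟩
      rw [← hse, ← hM]
      exact g4
    exact_mod_cast a1.trans hex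
  · have hff1 : 1 ≤ ff L n := by
      unfold ff
      exact Nat.mul_pos (by omega) (by omega)
    have e1 : (n + 1) ^ 2 - g * (n + 1) ≤ ff L n - 1 := expo h1 h2
    have e2 : few n H K g ≤ K * (3 * s) ^ (ff L n - 1) * (M + 1) ^ (ff L n - 1) := by
      unfold few
      refine (Nat.mul_le_mul_left K (Nat.pow_le_pow_right (by omega) e1)).trans ?_
      rw [mul_assoc, ← mul_pow]
      exact Nat.mul_le_mul_left _ (Nat.pow_le_pow_left g5 _)
    have e3 : num L n H = (M + 1) * (M + 1) ^ (ff L n - 1) := by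
      unfold num
      rw [← hM, ← pow_succ', Nat.sub_add_cancel hff1]
    rw [e3]
    refine lt_of_le_of_lt (Nat.mul_le_mul_left 2 e2) ?_
    rw [← mul_assoc]
    refine Nat.mul_lt_mul_of_pos_right ?_ (by positivity)
    have e4 : 2 * (K * (3 * s) ^ (ff L n - 1)) = m := by
      rw [hm, hse]
      ring
    omega

end Pool.Agent.H447.IP
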