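import Pool.Agent.H447.IP.Stage
import Pool.Graph.R_pool_sql_team_seeded_2aa45f1a.Results.MP_2d259b_nt.WorstCaseFromMostCurves

/-!
# Bounds for the integer points on plane curves: partial algorithms for single polynomials
-/

set_option autoImplicit false

namespace Pool.Agent.H447.IP

open Pool.Agent.Q324.SC Encodable
open Pool.Agent.H201.AD (exists_computable_find exists_code_pair)
open Nat.Partrec (Code)

/-- the polynomial number `k` in the box -/
def bx (n H k : ℕ) : List Term :=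
  grid n (fun i j => Int.subNatNat (dig (2 * H) k (i + (n + 1) * j)) H)

/-- the number of the polynomials in the box -/
def tot (n H : ℕ) : ℕ := (2 * H + 1) ^ ((n + 1) * (n + 1))

lemma bx_mem (n H k : ℕ) : bx n H k ∈ Box n H := by
  refine ⟨_, fun i j => ?_, rfl⟩
  have h := dig_le (2 * H) k (i + (n + 1) * j)
  rw [Int.subNatNat_eq_coe]
  omega

lemma bx_inj (n H : ℕ) : Set.InjOn (bx n H) (Finset.range (tot n H) : Set ℕ) := by
  intro k hk k' hk' h
  rw [Finset.mem_coe, Finset.mem_range] at hk hk'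
  have h1 : ∀ s < (n + 1) * (n + 1), dig (2 * H) k s = dig (2 * H) k' s := by
    intro s hs
    have e1 : s % (n + 1) ≤ n := Nat.lt_succ_iff.1 (Nat.mod_lt _ (by omega))
    have e2 : s / (n + 1) ≤ n := Nat.lt_succ_iff.1 (by
      rw [Nat.div_lt_iff_lt_mul (by omega)]
      exact hs)
    have e3 := grid_inj h e1 e2
    rw [Nat.mod_add_div, Int.subNatNat_eq_coe, Int.subNatNat_eq_coe] at e3
    omega
  rw [eq_sum_dig (2 * H) _ k hk, eq_sum_dig (2 * H) _ k' hk']
  refine Finset.sum_congr rfl fun s hs => ?_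
  rw [h1 s (Finset.mem_range.1 hs)]

lemma bx_surj {n H : ℕ} {L : List Term} (h : L ∈ Box n H) : ∃ k < tot n H, bx n H k = L := by
  have h1 : (bx n H) '' (Finset.range (tot n H) : Set ℕ) = Box n H := by
    have h2 : (bx n H) '' (Finset.range (tot n H) : Set ℕ) ⊆ Box n H := by
      rintro _ ⟨k, _, rfl⟩
      exact bx_mem n H k
    have h3 := Pool.Agent.Results.MP_2d259b_nt.WorstCaseFromMostCurves.box_card n H
    have h4 : ((bx n H) '' (Finset.range (tot n H) : Set ℕ)).encard = ((tot n H : ℕ) : ℕ∞) := by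
      rw [(bx_inj n H).encard_image, Set.encard_coe_eq_coe_finsetCard, Finset.card_range]
    have h5 : (Box n H).encard ≤ ((bx n H) '' (Finset.range (tot n H) : Set ℕ)).encard := by
      rw [h3, h4, tot, sq]
    exact ((Finset.finite_toSet _).image _).eq_of_subset_of_encard_le h2 h5
  rw [← h1] at h
  obtain ⟨k, hk, hk2⟩ := h
  rw [Finset.mem_coe, Finset.mem_range] at hk
  exact ⟨k, hk, hk2⟩

lemma bx_primrec : Primrec (fun x : ℕ × ℕ × ℕ => bx x.1 x.2.1 x.2.2) := by
  unfold bx grid dig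
  refine pflatMap (by fun_prop) ?_
  refine pmap (by fun_prop) ?_
  fun_prop

lemma tot_primrec : Primrec (fun x : ℕ × ℕ => tot x.1 x.2) := by
  unfold tot
  fun_prop

/-- the value of the algorithm number `i` at `L` after `s` steps -/
def st (c : Code) (s i : ℕ) (L : List Term) : Option ℕ := c.evaln s (Nat.pair i (encode L))

lemma st_primrec (c : Code) : Primrec (fun x : ℕ × ℕ × List Term => st c x.1 x.2.1 x.2.2) := by
  unfold st
  have h1 : Primrec (fun x : ℕ × ℕ × List Term => Nat.pair x.2.1 (encode x.2.2)) :=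
    Primrec₂.natPair.comp (Primrec.fst.comp Primrec.snd)
      (Primrec.encode.comp (Primrec.snd.comp Primrec.snd))
  exact Nat.Partrec.Code.primrec_evaln.comp
    (Primrec.pair (Primrec.pair Primrec.fst (Primrec.const c)) h1)

/-- the number of values found after `s` steps -/
def cn (c : Code) (x : ((ℕ × ℕ) × ℕ) × ℕ) : ℕ :=
  ((List.range (tot x.1.1.1 x.1.1.2)).map fun k =>
    bif (st c x.2 x.1.2 (bx x.1.1.1 x.1.1.2 k)).isSome then 1 else 0).sum

/-- the sum of these values -/
def vs (c : Code) (x : ((ℕ × ℕ) × ℕ) × ℕ) : ℕ :=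
  ((List.range (tot x.1.1.1 x.1.1.2)).map fun k =>
    (st c x.2 x.1.2 (bx x.1.1.1 x.1.1.2 k)).getD 0).sum

lemma stb_primrec (c : Code) : Primrec (fun y : (((ℕ × ℕ) × ℕ) × ℕ) × ℕ =>
    st c y.1.2 y.1.1.2 (bx y.1.1.1.1 y.1.1.1.2 y.2)) := by
  have h1 : Primrec (fun y : (((ℕ × ℕ) × ℕ) × ℕ) × ℕ => (y.1.1.1.1, y.1.1.1.2, y.2)) := by fun_prop
  have h2 : Primrec (fun y : (((ℕ × ℕ) × ℕ) × ℕ) × ℕ => bx y.1.1.1.1 y.1.1.1.2 y.2) :=
    bx_primrec.comp h1
  have h3 : Primrec (fun y : (((ℕ × ℕ) × ℕ) × ℕ) × ℕ =>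
      (y.1.2, y.1.1.2, bx y.1.1.1.1 y.1.1.1.2 y.2)) := by fun_prop
  exact (st_primrec c).comp h3

lemma tt_primrec : Primrec (fun x : ((ℕ × ℕ) × ℕ) × ℕ => List.range (tot x.1.1.1 x.1.1.2)) := by
  have h1 : Primrec (fun x : ((ℕ × ℕ) × ℕ) × ℕ => (x.1.1.1, x.1.1.2)) := by fun_prop
  exact prange (tot_primrec.comp h1)

lemma cn_primrec (c : Code) : Primrec (cn c) := by
  unfold cn
  refine psum (pmap tt_primrec ?_)
  exact pcond (Primrec.option_isSome.comp (stb_primrec c)) (pconst 1) (pconst 0)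

lemma vs_primrec (c : Code) : Primrec (vs c) := by
  unfold vs
  refine psum (pmap tt_primrec ?_)
  exact Primrec.option_getD.comp (stb_primrec c) (pconst 0)

lemma cn_eq (c : Code) (n H i s : ℕ) : cn c (((n, H), i), s) =
    ((Finset.range (tot n H)).filter fun k => (st c s i (bx n H k)).isSome).card := by
  rw [Finset.card_filter]
  unfold cn
  simp only
  rw [← List.sum_toFinset _ (List.nodup_range), List.toFinset_range]
  refine Finset.sum_congr rfl fun k _ => ?_
  cases (st c s i (bx n H k)).isSome <;> simp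

lemma le_vs {c : Code} {n H i s k x : ℕ} (hk : k < tot n H) (h : st c s i (bx n H k) = some x) :
    x ≤ vs c (((n, H), i), s) := by
  unfold vs
  refine List.le_sum_of_mem (List.mem_map.2 ⟨k, List.mem_range.2 hk, ?_⟩)
  simp only
  rw [h]
  rfl

lemma st_mono {c : Code} {s s' i x : ℕ} {L : List Term} (h : s ≤ s') (hx : st c s i L = some x) :
    st c s' i L = some x :=
  Nat.Partrec.Code.evaln_mono h (show x ∈ c.evaln s _ from hx)

/-- From algorithms for single polynomials to guesses for every stage. -/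
theorem guesses_of_algorithms {A : ℕ × List Term →. ℕ} {e : ℕ × ℕ → ℕ} (hA : Partrec A)
    (he : Computable e) : ∃ F : (ℕ × ℕ) × ℕ →. ℕ, Partrec F ∧ ∀ n H i : ℕ,
      {L | L ∈ Box n H ∧ ¬ ∃ c ∈ A (i, L), Bd c L}.encard ≤ ((e (n, H) : ℕ) : ℕ∞) →
      ∃ c ∈ F ((n, H), i), {L | L ∈ Box n H ∧ ¬ Bd c L}.encard ≤ ((2 * e (n, H) : ℕ) : ℕ∞) := by
  classical
  -- the code
  have hA' : Partrec fun a : ℕ × ℕ => A (a.1, (decode (α := List Term) a.2).getD []) := by
    have h1 : Primrec (fun a : ℕ × ℕ => (decode (α := List Term) a.2).getD []) :=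
      Primrec.option_getD.comp (Primrec.decode.comp Primrec.snd) (Primrec.const [])
    exact hA.comp (Computable.fst.pair h1.to_comp)
  obtain ⟨c, hc⟩ := exists_code_pair hA'
  have hc2 : ∀ i (L : List Term), c.eval (Nat.pair i (encode L)) = A (i, L) := by
    intro i L
    rw [hc]
    simp only [encodek, Option.getD_some]
  -- the search
  obtain ⟨p, hp⟩ : ∃ p : ((ℕ × ℕ) × ℕ) → ℕ → Bool, p = fun x s =>
    decide (tot x.1.1 x.1.2 ≤ cn c (x, s) + e x.1) := ⟨_, rfl⟩
  have cp : Computable₂ p := by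
    have a1 : Computable (fun z : ((ℕ × ℕ) × ℕ) × ℕ => tot z.1.1.1 z.1.1.2) := by
      have h1 : Primrec (fun z : ((ℕ × ℕ) × ℕ) × ℕ => (z.1.1.1, z.1.1.2)) := by fun_prop
      exact (tot_primrec.comp h1).to_comp
    have a2 : Computable (fun z : ((ℕ × ℕ) × ℕ) × ℕ => cn c z + e z.1.1) :=
      Primrec.nat_add.to_comp.comp (cn_primrec c).to_comp
        (he.comp (Computable.fst.comp Computable.fst))
    have h0 : Primrec (fun y : ℕ × ℕ => decide (y.1 ≤ y.2)) := by fun_prop
    rw [hp]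
    exact Computable.comp (f := fun y : ℕ × ℕ => decide (y.1 ≤ y.2))
      (g := fun z : ((ℕ × ℕ) × ℕ) × ℕ => (tot z.1.1.1 z.1.1.2, cn c z + e z.1.1))
      h0.to_comp (a1.pair a2)
  have h1 : Partrec fun x : (ℕ × ℕ) × ℕ => Nat.rfind fun s => Part.some (p x s) :=
    Partrec.rfind cp.partrec₂
  have h2 : Partrec₂ fun (x : (ℕ × ℕ) × ℕ) (s : ℕ) => (Part.some (vs c (x, s)) : Part ℕ) :=
    (vs_primrec c).to_comp.partrec
  refine ⟨fun x => (Nat.rfind fun s => Part.some (p x s)).bind fun s => Part.some (vs c (x, s)),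
    h1.bind h2, fun n H i hex => ?_⟩
  -- the good numbers
  let G : Finset ℕ := (Finset.range (tot n H)).filter fun k =>
    ∃ x ∈ A (i, bx n H k), Bd x (bx n H k)
  have hG : tot n H ≤ G.card + e (n, H) := by
    have a1 : (((Finset.range (tot n H)).filter fun k =>
        ¬ ∃ x ∈ A (i, bx n H k), Bd x (bx n H k)).card : ℕ∞) ≤ ((e (n, H) : ℕ) : ℕ∞) := by
      refine le_trans ?_ hex
      rw [← Set.encard_coe_eq_coe_finsetCard]
      have a2 : Set.InjOn (bx n H) (((Finset.range (tot n H)).filter fun k =>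
          ¬ ∃ x ∈ A (i, bx n H k), Bd x (bx n H k) : Finset ℕ) : Set ℕ) := by
        refine (bx_inj n H).mono ?_
        rw [Finset.coe_subset]
        exact Finset.filter_subset _ _
      rw [← a2.encard_image]
      refine Set.encard_le_encard ?_
      rintro _ ⟨k, hk, rfl⟩
      rw [Finset.mem_coe, Finset.mem_filter] at hk
      exact ⟨bx_mem n H k, hk.2⟩
    have a3 : ((Finset.range (tot n H)).filter fun k =>
        ¬ ∃ x ∈ A (i, bx n H k), Bd x (bx n H k)).card ≤ e (n, H) := by exact_mod_cast a1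
    have a4 := Finset.card_filter_add_card_filter_not (s := Finset.range (tot n H))
      (fun k => ∃ x ∈ A (i, bx n H k), Bd x (bx n H k))
    rw [Finset.card_range] at a4
    have a5 : G.card + ((Finset.range (tot n H)).filter fun k =>
        ¬ ∃ x ∈ A (i, bx n H k), Bd x (bx n H k)).card = tot n H := a4
    omega
  -- all good values appear
  have h3 : ∀ k, ∃ s, k ∈ G → (st c s i (bx n H k)).isSome := by
    intro k
    by_cases hk : k ∈ G
    · obtain ⟨x, hx, _⟩ := (Finset.mem_filter.1 hk).2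
      rw [← hc2] at hx
      obtain ⟨s, hs⟩ := Nat.Partrec.Code.evaln_complete.1 hx
      exact ⟨s, fun _ => Option.isSome_iff_exists.2 ⟨x, hs⟩⟩
    · exact ⟨0, fun h => absurd h hk⟩
  choose S hS using h3
  have h4 : p ((n, H), i) (G.sup S) = true := by
    rw [hp]
    refine decide_eq_true ?_
    simp only
    rw [cn_eq]
    have a1 : G ⊆ (Finset.range (tot n H)).filter fun k =>
        (st c (G.sup S) i (bx n H k)).isSome := by
      intro k hk
      rw [Finset.mem_filter]
      refine ⟨(Finset.mem_filter.1 hk).1, ?_⟩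
      obtain ⟨x, hx⟩ := Option.isSome_iff_exists.1 (hS k hk)
      exact Option.isSome_iff_exists.2 ⟨x, st_mono (Finset.le_sup hk) hx⟩
    have a2 := Finset.card_le_card a1
    omega
  have h5 : (Nat.rfind fun s => Part.some (p ((n, H), i) s)).Dom :=
    Nat.rfind_dom.mpr ⟨G.sup S, by rw [h4]; exact Part.mem_some _, fun _ => trivial⟩
  have h6 := Part.get_mem h5
  obtain ⟨s, hs⟩ : ∃ s, s = (Nat.rfind fun s => Part.some (p ((n, H), i) s)).get h5 := ⟨_, rfl⟩
  rw [← hs] at h6
  have h7 : tot n H ≤ cn c (((n, H), i), s) + e (n, H) := by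
    have := Nat.rfind_spec h6
    rw [hp] at this
    simpa using this
  refine ⟨vs c (((n, H), i), s), Part.mem_bind h6 (Part.mem_some _), ?_⟩
  -- the exceptions
  have h8 : {L | L ∈ Box n H ∧ ¬ Bd (vs c (((n, H), i), s)) L} ⊆
      {L | L ∈ Box n H ∧ ¬ ∃ c ∈ A (i, L), Bd c L} ∪
        (bx n H) '' (((Finset.range (tot n H)).filter fun k =>
          ¬ (st c s i (bx n H k)).isSome : Finset ℕ) : Set ℕ) := by
    rintro L ⟨hL, hL2⟩
    by_cases h9 : ∃ c ∈ A (i, L), Bd c L
    · right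
      obtain ⟨x, hx, hx2⟩ := h9
      obtain ⟨k, hk, rfl⟩ := bx_surj hL
      refine ⟨k, ?_, rfl⟩
      rw [Finset.mem_coe, Finset.mem_filter, Finset.mem_range]
      refine ⟨hk, fun h10 => hL2 ?_⟩
      obtain ⟨y, hy⟩ := Option.isSome_iff_exists.1 h10
      have h11 : y ∈ A (i, bx n H k) := by
        rw [← hc2]
        exact Nat.Partrec.Code.evaln_sound (show y ∈ c.evaln s _ from hy)
      obtain rfl := Part.mem_unique hx h11
      exact hx2.mono (le_vs hk hy)
    · exact Or.inl ⟨hL, h9⟩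
  refine (Set.encard_le_encard h8).trans ((Set.encard_union_le _ _).trans ?_)
  have h9 : ((bx n H) '' (((Finset.range (tot n H)).filter fun k =>
      ¬ (st c s i (bx n H k)).isSome : Finset ℕ) : Set ℕ)).encard ≤ ((e (n, H) : ℕ) : ℕ∞) := by
    refine (Set.encard_image_le _ _).trans ?_
    rw [Set.encard_coe_eq_coe_finsetCard]
    have a4 := Finset.card_filter_add_card_filter_not (s := Finset.range (tot n H))
      (fun k => (st c s i (bx n H k)).isSome)
    rw [Finset.card_range] at a4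
    rw [cn_eq] at h7
    have a5 : ((Finset.range (tot n H)).filter fun k =>
      ¬ (st c s i (bx n H k)).isSome).card ≤ e (n, H) := by omega
    exact_mod_cast a5
  refine (add_le_add hex h9).trans ?_
  rw [two_mul]
  push_cast
  exact le_rfl

/-- **Algorithms for single polynomials.** -/
theorem of_algorithms (k : ℕ) {A : ℕ × List Term →. ℕ} {K g : ℕ → ℕ} {r : ℕ × ℕ → Bool}
    (hA : Partrec A) (hK : Computable K) (hg : Computable g) (hr : Computable r) (hd : Dense g r)
    (h : ∀ n H : ℕ, r (n, H) = true → ∃ i < k,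
      {L | L ∈ Box n H ∧ ¬ ∃ c ∈ A (i, L), Bd c L}.encard ≤
        ((few n H (K n) (g n) : ℕ) : ℕ∞)) :
    ∃ B : List Term → ℕ, Computable B ∧ ∀ L, Bd (B L) L := by
  have he : Computable fun x : ℕ × ℕ => few x.1 x.2 (K x.1) (g x.1) := by
    have h1 : Primrec (fun y : (ℕ × ℕ) × ℕ × ℕ => few y.1.1 y.1.2 y.2.1 y.2.2) := by
      unfold few
      fun_prop
    exact Computable.comp (f := fun y : (ℕ × ℕ) × ℕ × ℕ => few y.1.1 y.1.2 y.2.1 y.2.2)
      (g := fun x : ℕ × ℕ => (x, K x.1, g x.1)) h1.to_comp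
      (Computable.id.pair ((hK.comp Computable.fst).pair (hg.comp Computable.fst)))
  obtain ⟨F, hF, hF2⟩ := guesses_of_algorithms hA he
  refine of_guesses k (K := fun n => 2 * K n) (g := g) (r := r) hF
    (Primrec.nat_mul.to_comp.comp (Computable.const 2) hK) hg hr hd fun n H hn => ?_
  obtain ⟨i, hi, hi2⟩ := h n H hn
  obtain ⟨c, hc, hc2⟩ := hF2 n H i hi2
  refine ⟨i, hi, c, hc, hc2.trans ?_⟩
  unfold few
  simp only
  rw [mul_assoc]

end Pool.Agent.H447.IP
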