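import Pool.Agent.H447.IP.Core

/-!
# Bounds for the integer points on plane curves: guesses for every stage
-/

set_option autoImplicit false

namespace Pool.Agent.H447.IP

open Pool.Agent.Q324.SC Encodable
open Pool.Agent.H201.AD (exists_computable_find bounded_of_advice)

/-- the polynomials number at most `N` -/
def lst (N : ℕ) : List (List Term) := (List.range (N + 1)).map fun j => (decode (α := List Term) j).getD []

lemma lst_primrec : Primrec lst := by
  unfold lst
  refine pmap (by fun_prop) ?_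
  exact Primrec.option_getD.comp (Primrec.decode.comp Primrec.snd) (Primrec.const [])

lemma mem_lst {L : List Term} {N : ℕ} (h : encode L ≤ N) : L ∈ lst N := by
  unfold lst
  rw [List.mem_map]
  refine ⟨encode L, List.mem_range.2 (by omega), ?_⟩
  rw [encodek]
  rfl

lemma ee_primrec : Primrec (fun x : List Term × ℕ => ee x.1 x.2) := by
  unfold ee
  exact psub (by fun_prop) (dg_primrec.comp (by fun_prop))

lemma ff_primrec : Primrec (fun x : List Term × ℕ => ff x.1 x.2) := by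
  unfold ff
  have h1 := ee_primrec
  exact pmul (padd h1 (pconst 1)) (padd h1 (pconst 1))

lemma thr_primrec : Primrec (fun x : List Term × ℕ × ℕ => thr x.1 x.2.1 x.2.2) := by
  unfold thr
  have g1 : Primrec (fun x : List Term × ℕ × ℕ => (x.1, x.2.1)) := by fun_prop
  have h1 : Primrec (fun x : List Term × ℕ × ℕ => ff x.1 x.2.1) := ff_primrec.comp g1
  have h2 : Primrec (fun x : List Term × ℕ × ℕ => sz x.1) := sz_primrec.comp (by fun_prop)
  have h3 : Primrec (fun x : List Term × ℕ × ℕ => x.2.2) := by fun_prop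
  exact padd h2 (pmul (pmul (pconst 2) h2)
    (pmul (pmul (pconst 2) h3) (ppow (pmul (pconst 3) h2) (psub h1 (pconst 1)))))

/-- a sufficient size of the coefficients for the polynomials number at most `N` -/
def V (N n K : ℕ) : ℕ := ((lst N).map fun L => thr L n K).sum

lemma V_primrec : Primrec (fun x : ℕ × ℕ × ℕ => V x.1 x.2.1 x.2.2) := by
  unfold V
  refine psum (pmap (lst_primrec.comp (by fun_prop)) ?_)
  have h : Primrec (fun x : (ℕ × ℕ × ℕ) × List Term => (x.2, x.1.2.1, x.1.2.2)) := by fun_prop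
  exact thr_primrec.comp h

lemma le_V {L : List Term} {N : ℕ} (h : encode L ≤ N) (n K : ℕ) : thr L n K ≤ V N n K :=
  List.le_sum_of_mem (List.mem_map.2 ⟨L, mem_lst h, rfl⟩)

/-- there are arbitrarily large degrees `n` with `g n` arbitrarily large and infinitely many sizes -/
def Dense (g : ℕ → ℕ) (r : ℕ × ℕ → Bool) : Prop :=
  ∀ m, ∃ n, m ≤ n ∧ m ≤ g n ∧ ∀ B, ∃ H ≥ B, r (n, H) = true

/-- the search for a good stage -/
theorem stages {K g : ℕ → ℕ} {r : ℕ × ℕ → Bool} (hK : Computable K) (hg : Computable g)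
    (hr : Computable r) (hd : Dense g r) : ∃ σ : ℕ → ℕ × ℕ, Computable σ ∧
      ∀ N, N ≤ (σ N).1 ∧ N ≤ g (σ N).1 ∧ r (σ N) = true ∧ V N (σ N).1 (K (σ N).1) ≤ (σ N).2 := by
  let p : ℕ → ℕ → Bool := fun N t => decide (N ≤ t.unpair.1) && (decide (N ≤ g t.unpair.1) &&
    (r (t.unpair.1, t.unpair.2) && decide (V N t.unpair.1 (K t.unpair.1) ≤ t.unpair.2)))
  have hp : Computable₂ p := by
    have h0 : Primrec (fun y : ℕ × ℕ => decide (y.1 ≤ y.2)) := by fun_prop
    have u1 : Computable (fun z : ℕ × ℕ => z.2.unpair.1) :=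
      (Primrec.fst.comp (Primrec.unpair.comp Primrec.snd)).to_comp
    have u2 : Computable (fun z : ℕ × ℕ => z.2.unpair.2) :=
      (Primrec.snd.comp (Primrec.unpair.comp Primrec.snd)).to_comp
    have a1 : Computable (fun z : ℕ × ℕ => decide (z.1 ≤ z.2.unpair.1)) :=
      Computable.comp (f := fun y : ℕ × ℕ => decide (y.1 ≤ y.2))
        (g := fun z : ℕ × ℕ => (z.1, z.2.unpair.1)) h0.to_comp (Computable.fst.pair u1)
    have a2 : Computable (fun z : ℕ × ℕ => decide (z.1 ≤ g z.2.unpair.1)) :=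
      Computable.comp (f := fun y : ℕ × ℕ => decide (y.1 ≤ y.2))
        (g := fun z : ℕ × ℕ => (z.1, g z.2.unpair.1)) h0.to_comp (Computable.fst.pair (hg.comp u1))
    have a3 : Computable (fun z : ℕ × ℕ => r (z.2.unpair.1, z.2.unpair.2)) := hr.comp (u1.pair u2)
    have a4 : Computable (fun z : ℕ × ℕ => V z.1 z.2.unpair.1 (K z.2.unpair.1)) :=
      Computable.comp (f := fun x : ℕ × ℕ × ℕ => V x.1 x.2.1 x.2.2)
        (g := fun z : ℕ × ℕ => (z.1, z.2.unpair.1, K z.2.unpair.1)) V_primrec.to_comp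
        (Computable.fst.pair (u1.pair (hK.comp u1)))
    have a5 : Computable (fun z : ℕ × ℕ =>
        decide (V z.1 z.2.unpair.1 (K z.2.unpair.1) ≤ z.2.unpair.2)) :=
      Computable.comp (f := fun y : ℕ × ℕ => decide (y.1 ≤ y.2))
        (g := fun z : ℕ × ℕ => (V z.1 z.2.unpair.1 (K z.2.unpair.1), z.2.unpair.2))
        h0.to_comp (a4.pair u2)
    exact Primrec.and.to_comp.comp a1 (Primrec.and.to_comp.comp a2 (Primrec.and.to_comp.comp a3 a5))
  obtain ⟨f, hf, hf'⟩ := exists_computable_find hp fun N => by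
    obtain ⟨n, h1, h2, h3⟩ := hd N
    obtain ⟨H, h4, h5⟩ := h3 (V N n (K n))
    refine ⟨Nat.pair n H, ?_⟩
    simp only [p, Nat.unpair_pair, Bool.and_eq_true, decide_eq_true_eq]
    exact ⟨h1, h2, h5, h4⟩
  refine ⟨fun N => ((f N).unpair.1, (f N).unpair.2), ?_, fun N => ?_⟩
  · exact (Computable.fst.comp (Computable.unpair.comp hf)).pair
      (Computable.snd.comp (Computable.unpair.comp hf))
  · have h1 := hf' N
    simp only [p, Bool.and_eq_true, decide_eq_true_eq] at h1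
    exact h1

/-- `c` bounds the integer zeros of the first polynomials -/
def PP (N c : ℕ) : Prop := ∀ L : List Term, 2 * dg L + 1 + encode L ≤ N → Bd c L

lemma PP_mono (i c c' : ℕ) (h : c ≤ c') (h1 : PP i c) : PP i c' := fun L hL => (h1 L hL).mono h

lemma PP_down (i j c : ℕ) (h : i ≤ j) (h1 : PP j c) : PP i c := fun L hL => h1 L (by omega)

lemma of_PP {C : ℕ → ℕ} (hC : Computable C) (h : ∀ i, PP i (C i)) :
    ∃ B : List Term → ℕ, Computable B ∧ ∀ L, Bd (B L) L := by
  refine ⟨fun L => C (2 * dg L + 1 + encode L), hC.comp ?_, fun L => h _ L le_rfl⟩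
  have h1 : Primrec (fun L : List Term => 2 * dg L + 1 + encode L) :=
    padd (padd (pmul (pconst 2) dg_primrec) (pconst 1)) (by fun_prop)
  exact h1.to_comp

/-- one guess for every stage -/
lemma guess_ok {K g : ℕ → ℕ} {σ : ℕ × ℕ} {N c : ℕ} (h1 : N ≤ σ.1) (h2 : N ≤ g σ.1)
    (h3 : V N σ.1 (K σ.1) ≤ σ.2)
    (h : {L | L ∈ Box σ.1 σ.2 ∧ ¬ Bd c L}.encard ≤ ((few σ.1 σ.2 (K σ.1) (g σ.1) : ℕ) : ℕ∞)) :
    PP N c := by
  classical
  intro L hL hf
  have e1 : dg L ≤ σ.1 := by omega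
  have e2 : 2 * dg L + 1 ≤ g σ.1 := by omega
  have e3 : thr L σ.1 (K σ.1) ≤ σ.2 := (le_V (by omega) _ _).trans h3
  obtain ⟨a1, a2⟩ := few_bad hf e1 e2 e3 (Bd c) h
  have a3 : ∃ k ∈ Finset.range (num L σ.1 σ.2), Bd c (cd L σ.1 σ.2 k) := by
    by_contra hcon
    push Not at hcon
    rw [Finset.filter_true_of_mem hcon, Finset.card_range] at a1
    omega
  obtain ⟨k, _, hk⟩ := a3
  exact cd_bd e1 hk hf

/-- **Guesses for every stage.** -/
theorem of_guesses (k : ℕ) {F : (ℕ × ℕ) × ℕ →. ℕ} {K g : ℕ → ℕ} {r : ℕ × ℕ → Bool}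
    (hF : Partrec F) (hK : Computable K) (hg : Computable g) (hr : Computable r) (hd : Dense g r)
    (h : ∀ n H : ℕ, r (n, H) = true → ∃ b < k, ∃ c ∈ F ((n, H), b),
      {L | L ∈ Box n H ∧ ¬ Bd c L}.encard ≤ ((few n H (K n) (g n) : ℕ) : ℕ∞)) :
    ∃ B : List Term → ℕ, Computable B ∧ ∀ L, Bd (B L) L := by
  obtain ⟨σ, hσ, hσ2⟩ := stages hK hg hr hd
  have hF' : Partrec fun a : ℕ × ℕ => F (σ a.1, a.2) :=
    hF.comp ((hσ.comp Computable.fst).pair Computable.snd)
  have ht : Computable fun a : ℕ × ℕ × ℕ => a.2.2 := Computable.snd.comp Computable.snd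
  obtain ⟨C, hC, hC2⟩ := bounded_of_advice hF' k PP PP_mono (fun a => a.2.2) ht PP_down
    fun N => by
      obtain ⟨h1, h2, h3, h4⟩ := hσ2 N
      obtain ⟨b, hb, c, hc, hc2⟩ := h (σ N).1 (σ N).2 h3
      exact ⟨b, hb, c, hc, guess_ok h1 h2 h4 hc2⟩
  exact of_PP hC hC2

end Pool.Agent.H447.IP
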